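import Mathlib

set_option autoImplicit false

namespace Pool.Agent.H.MP_f4ff42_al

inductive S : Type
  | g (n : ℤ) : S
  | r (i : ℤ) (h : ℤ →₀ ℤ) (l : ℤ) : S

noncomputable def q (n : ℤ) : ℤ →₀ ℤ := Finsupp.single n 1

noncomputable def mul : S → S → S
  | .g a, .g b => .g (a + b)
  | .g a, .r i h l => .r (a + i) h l
  | .r i h l, .g a => .r i h (l + a)
  | .r i h l, .r j k m => .r i (h + q (l + j) + k) m

noncomputable instance : Semigroup S where
  mul := mul
  mul_assoc a b c := by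
    show mul (mul a b) c = mul a (mul b c)
    cases a <;> cases b <;> cases c <;> simp [mul, add_assoc]

theorem gg (a b : ℤ) : S.g a * S.g b = S.g (a + b) := rfl
theorem gr (a i : ℤ) (h : ℤ →₀ ℤ) (l : ℤ) : S.g a * S.r i h l = S.r (a + i) h l := rfl
theorem rg (a i : ℤ) (h : ℤ →₀ ℤ) (l : ℤ) : S.r i h l * S.g a = S.r i h (l + a) := rfl
theorem rr (i j l m : ℤ) (h k : ℤ →₀ ℤ) :
    S.r i h l * S.r j k m = S.r i (h + q (l + j) + k) m := rfl

theorem cr (x : S) : ∃ (G : Type) (_ : Group G) (φ : G →ₙ* S),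
    Function.Injective φ ∧ x ∈ Set.range φ := by
  cases x with
  | g n =>
    refine ⟨Multiplicative ℤ, inferInstance, ⟨fun a => S.g a.toAdd, fun a b => rfl⟩, ?_,
      Multiplicative.ofAdd n, rfl⟩
    intro a b h
    exact Multiplicative.toAdd.injective (S.g.inj h)
  | r i h l =>
    refine ⟨Multiplicative (ℤ →₀ ℤ), inferInstance,
      ⟨fun a => S.r i (a.toAdd - q (l + i)) l, fun a b => ?_⟩, ?_,
      Multiplicative.ofAdd (h + q (l + i)), ?_⟩
    · rw [rr, toAdd_mul]; congr 1; abel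
    · intro a b h
      exact Multiplicative.toAdd.injective (sub_left_injective (S.r.inj h).2.1)
    · show S.r i _ l = _
      simp

theorem notfg : ¬ ∃ F : Finset S, Subsemigroup.closure (F : Set S) = ⊤ := by
  classical
  rintro ⟨F, hF⟩
  let sp : S → Finset ℤ := fun x => match x with
    | .g _ => ∅
    | .r _ h _ => h.support
  obtain ⟨n, hn⟩ := Infinite.exists_notMem_finset (F.biUnion sp)
  let P : S → Prop := fun x => match x with
    | .g _ => True
    | .r _ h _ => 0 ≤ h n
  have key : ∀ x ∈ Subsemigroup.closure (F : Set S), P x := by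
    intro x hx
    induction hx using Subsemigroup.closure_induction with
    | mem x hx =>
      cases x with
      | g a => trivial
      | r i h l =>
        have : n ∉ h.support := fun hh => hn (Finset.mem_biUnion.2 ⟨_, hx, hh⟩)
        show 0 ≤ h n
        rw [Finsupp.notMem_support_iff.1 this]
    | mul x y _ _ hx hy =>
      cases x with
      | g a => cases y with
        | g b => trivial
        | r j k m => exact hy
      | r i h l => cases y with
        | g b => exact hx
        | r j k m =>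
          show 0 ≤ (h + q (l + j) + k) n
          have h1 : 0 ≤ h n := hx
          have h2 : 0 ≤ k n := hy
          have h3 : 0 ≤ q (l + j) n := by
            unfold q; rw [Finsupp.single_apply]; split_ifs <;> omega
          simp only [Finsupp.add_apply]; omega
  have : 0 ≤ (-q n) n := key (S.r 0 (-q n) 0) (by rw [hF]; trivial)
  simp [q] at this

theorem shift (τ : Setoid S) (hτ : ∀ a b s, τ a b → τ (a * s) (b * s)) {i l : ℤ}
    {h h' : ℤ →₀ ℤ} (H : τ (S.r i h l) (S.r i h' l)) (c : ℤ →₀ ℤ) (m : ℤ) :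
    τ (S.r i (h + c) m) (S.r i (h' + c) m) := by
  have := hτ _ _ (S.r 0 (c - q (l + 0)) m) H
  rw [rr, rr] at this
  convert this using 2 <;> abel

theorem per {α : Type} (f : ℤ → α) (n : ℤ) (h : ∀ j, f (j + n) = f j) (j : ℤ) :
    f (j % n) = f j := by
  have : Function.Periodic f n := h
  rw [Int.emod_def, mul_comm]
  exact this.sub_int_mul_eq (j / n)

theorem fnoeth (ρ : Setoid S) (hρ : ∀ a b s, ρ a b → ρ (a * s) (b * s)) [Finite (Quotient ρ)] :
    ∃ X : Finset (S × S), (∀ p ∈ X, ρ p.1 p.2) ∧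
      ∀ τ : Setoid S, (∀ a b s, τ a b → τ (a * s) (b * s)) → (∀ p ∈ X, τ p.1 p.2) →
        ∀ a b, ρ a b → τ a b := by
  classical
  obtain ⟨n, hn0, hn⟩ : ∃ n : ℤ, 0 < n ∧ ∀ x, ρ x (x * S.g n) := by
    let f : ℤ → Quotient ρ → Quotient ρ := fun a =>
      Quotient.map (fun x => x * S.g a) (fun x y h => hρ x y _ h)
    obtain ⟨a, b, hab, he⟩ := Finite.exists_ne_map_eq_of_infinite f
    have key : ∀ a b : ℤ, f a = f b → ∀ x, ρ x (x * S.g (b - a)) := by
      intro a b he x
      have h1 : ρ (x * S.g a) (x * S.g b) := Quotient.exact (congrFun he (Quotient.mk ρ x))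
      have h2 := hρ _ _ (S.g (-a)) h1
      rw [mul_assoc, mul_assoc, gg, gg, add_neg_cancel, ← sub_eq_add_neg] at h2
      have h3 : x * S.g 0 = x := by cases x <;> simp [gg, rg]
      rwa [h3] at h2
    rcases lt_or_gt_of_ne hab with h | h
    · exact ⟨b - a, by omega, key a b he⟩
    · exact ⟨a - b, by omega, key b a he.symm⟩
  obtain ⟨N, hN0, hN⟩ : ∃ N : ℤ, 0 < N ∧ ∀ i ∈ Finset.Ico 0 n, ∀ j ∈ Finset.Ico 0 n,
      ρ (S.r i 0 0) (S.r i (N • q j) 0) := by
    let f : ℤ → (Finset.Ico 0 n × Finset.Ico 0 n) → Quotient ρ := fun a p =>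
      Quotient.mk ρ (S.r p.1 (a • q p.2) 0)
    obtain ⟨a, b, hab, he⟩ := Finite.exists_ne_map_eq_of_infinite f
    have key : ∀ a b : ℤ, f a = f b → ∀ i ∈ Finset.Ico 0 n, ∀ j ∈ Finset.Ico 0 n,
        ρ (S.r i 0 0) (S.r i ((b - a) • q j) 0) := by
      intro a b he i hi j hj
      have h1 : ρ (S.r i (a • q j) 0) (S.r i (b • q j) 0) :=
        Quotient.exact (congrFun he (⟨i, hi⟩, ⟨j, hj⟩))
      have h2 := shift ρ hρ h1 (-(a • q j)) 0
      rwa [add_neg_cancel, ← sub_eq_add_neg, ← sub_smul] at h2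
    rcases lt_or_gt_of_ne hab with h | h
    · exact ⟨b - a, by omega, key a b he⟩
    · exact ⟨a - b, by omega, key b a he.symm⟩
  let K : AddSubgroup (ℤ →₀ ℤ) := AddSubgroup.closure
    ({x | ∃ j, x = q (j + n) - q j} ∪ {x | ∃ j ∈ Finset.Ico 0 n, x = N • q j})
  have hfin : Finite ((ℤ →₀ ℤ) ⧸ K) := by
    let π : (ℤ →₀ ℤ) →+ (ℤ →₀ ℤ) ⧸ K := QuotientAddGroup.mk' K
    have hper : ∀ j, π (q (j % n)) = π (q j) := per (fun j => π (q j)) n (fun j => by
      show π _ = π _
      rw [← sub_eq_zero, ← map_sub]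
      exact (QuotientAddGroup.eq_zero_iff _).2 (AddSubgroup.subset_closure (Or.inl ⟨j, rfl⟩)))
    have hmem : ∀ j, j % n ∈ Finset.Ico 0 n := fun j =>
      Finset.mem_Ico.2 ⟨Int.emod_nonneg _ hn0.ne', Int.emod_lt_of_pos _ hn0⟩
    let T : Finset ((ℤ →₀ ℤ) ⧸ K) := (Finset.Ico 0 n).image (fun j => π (q j))
    have key : ∀ h : ℤ →₀ ℤ, π h ∈ AddSubgroup.closure (T : Set _) ∧ N • π h = 0 := by
      intro h
      induction h using Finsupp.induction_linear with
      | zero => simp
      | add f g hf hg =>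
        rw [map_add]
        exact ⟨AddSubgroup.add_mem _ hf.1 hg.1, by rw [zsmul_add, hf.2, hg.2, add_zero]⟩
      | single j z =>
        have : Finsupp.single j z = z • q j := by simp [q]
        rw [this, map_zsmul, ← hper]
        refine ⟨AddSubgroup.zsmul_mem _ (AddSubgroup.subset_closure ?_) _, ?_⟩
        · exact Finset.mem_coe.2 (Finset.mem_image.2 ⟨_, hmem j, rfl⟩)
        · rw [smul_comm, ← map_zsmul]
          have : π (N • q (j % n)) = 0 := (QuotientAddGroup.eq_zero_iff _).2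
            (AddSubgroup.subset_closure (Or.inr ⟨_, hmem j, rfl⟩))
          rw [this, smul_zero]
    have : AddGroup.FG ((ℤ →₀ ℤ) ⧸ K) := ⟨⟨T, by
      rw [eq_top_iff]
      intro a _
      obtain ⟨h, rfl⟩ := QuotientAddGroup.mk'_surjective K a
      exact (key h).1⟩⟩
    refine AddCommGroup.finite_of_fg_isAddTorsion _ ?_
    intro a
    obtain ⟨h, rfl⟩ := QuotientAddGroup.mk'_surjective K a
    exact isOfFinAddOrder_iff_zsmul_eq_zero.2 ⟨N, hN0.ne', (key h).2⟩
  have := Fintype.ofFinite ((ℤ →₀ ℤ) ⧸ K)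
  let Hf : Finset (ℤ →₀ ℤ) := Finset.univ.image (fun a : (ℤ →₀ ℤ) ⧸ K => a.out)
  let I : Finset ℤ := Finset.Ico 0 n
  let X0 : Finset (S × S) := insert (S.g 0, S.g n)
    (((I ×ˢ I).image fun p => (S.r p.1 0 0, S.r p.1 (N • q p.2) 0)) ∪
      ((I ×ˢ insert 0 Hf).image fun p => (S.r p.1 p.2 0, S.r p.1 p.2 n)))
  let Fz : Finset S := I.image S.g ∪ (I ×ˢ Hf ×ˢ I).image fun p => S.r p.1 p.2.1 p.2.2
  have hX0 : ∀ p ∈ X0, ρ p.1 p.2 := by
    intro p hp
    simp only [X0, Finset.mem_insert, Finset.mem_union, Finset.mem_image, Finset.mem_product] at hp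
    rcases hp with rfl | ⟨p, hp, rfl⟩ | ⟨p, -, rfl⟩
    · simpa [gg] using hn (S.g 0)
    · exact hN _ hp.1 _ hp.2
    · simpa [rg] using hn (S.r p.1 p.2 0)
  have main : ∀ τ : Setoid S, (∀ a b s, τ a b → τ (a * s) (b * s)) → (∀ p ∈ X0, τ p.1 p.2) →
      ∀ x, ∃ a ∈ Fz, τ x a := by
    intro τ hτ hX x
    have hmem : ∀ j, j % n ∈ I := fun j =>
      Finset.mem_Ico.2 ⟨Int.emod_nonneg _ hn0.ne', Int.emod_lt_of_pos _ hn0⟩
    have h0 : τ (S.g 0) (S.g n) := hX (_, _) (Finset.mem_insert_self _ _)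
    have h1 : ∀ i ∈ I, ∀ j ∈ I, τ (S.r i 0 0) (S.r i (N • q j) 0) := fun i hi j hj =>
      hX (_, _) (Finset.mem_insert_of_mem (Finset.mem_union_left _
        (Finset.mem_image.2 ⟨(i, j), Finset.mem_product.2 ⟨hi, hj⟩, rfl⟩)))
    have h2 : ∀ i ∈ I, ∀ h ∈ insert 0 Hf, τ (S.r i h 0) (S.r i h n) := fun i hi h hh =>
      hX (_, _) (Finset.mem_insert_of_mem (Finset.mem_union_right _
        (Finset.mem_image.2 ⟨(i, h), Finset.mem_product.2 ⟨hi, hh⟩, rfl⟩)))
    cases x with
    | g a =>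
      refine ⟨S.g (a % n), Finset.mem_union_left _ (Finset.mem_image_of_mem _ (hmem a)), ?_⟩
      refine Quotient.exact (per (fun j => Quotient.mk τ (S.g j)) n (fun j => ?_) a).symm
      have := hτ _ _ (S.g j) h0
      rw [gg, gg, zero_add, add_comm] at this
      exact (Quotient.sound this).symm
    | r i h l =>
      have e1 : τ (S.r i h l) (S.r (i % n) h l) := by
        refine Quotient.exact (per (fun j => Quotient.mk τ (S.r j h l)) n (fun j => ?_) i).symm
        have := hτ _ _ (S.r j h l) h0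
        rw [gr, gr, zero_add, add_comm] at this
        exact (Quotient.sound this).symm
      have hK : ∀ k ∈ K, τ (S.r (i % n) 0 0) (S.r (i % n) k 0) := by
        intro k hk
        induction hk using AddSubgroup.closure_induction with
        | mem x hx =>
          rcases hx with ⟨j, rfl⟩ | ⟨j, hj, rfl⟩
          · have := hτ _ _ (S.r j (-q j) 0) (h2 _ (hmem i) 0 (Finset.mem_insert_self _ _))
            rw [rr, rr] at this
            convert this using 2
            · simp
            · rw [add_comm n j]; abel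
          · exact h1 _ (hmem i) j hj
        | zero => exact τ.refl _
        | add x y _ _ hx hy =>
          have := shift τ hτ hx y 0
          rw [zero_add] at this
          exact τ.trans hy this
        | neg x _ hx =>
          have := shift τ hτ hx (-x) 0
          rw [zero_add, add_neg_cancel] at this
          exact τ.symm this
      let h' : ℤ →₀ ℤ := ((h : (ℤ →₀ ℤ) ⧸ K)).out
      have hh' : h' ∈ Hf := Finset.mem_image_of_mem _ (Finset.mem_univ _)
      have e2 : τ (S.r (i % n) h l) (S.r (i % n) h' l) := by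
        have h3 : -h + h' ∈ K := QuotientAddGroup.eq.1 (QuotientAddGroup.out_eq' _).symm
        have := shift τ hτ (hK _ h3) h l
        convert this using 2 <;> abel
      have e3 : τ (S.r (i % n) h' l) (S.r (i % n) h' (l % n)) := by
        refine Quotient.exact
          (per (fun j => Quotient.mk τ (S.r (i % n) h' j)) n (fun j => ?_) l).symm
        have := hτ _ _ (S.g j) (h2 _ (hmem i) h' (Finset.mem_insert_of_mem hh'))
        rw [rg, rg, zero_add, add_comm] at this
        exact (Quotient.sound this).symm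
      refine ⟨_, Finset.mem_union_right _ (Finset.mem_image.2 ⟨(i % n, h', l % n),
        Finset.mem_product.2 ⟨hmem i, Finset.mem_product.2 ⟨hh', hmem l⟩⟩, rfl⟩),
        τ.trans e1 (τ.trans e2 e3)⟩
  refine ⟨X0 ∪ (Fz ×ˢ Fz).filter (fun p => ρ p.1 p.2), ?_, ?_⟩
  · intro p hp
    rcases Finset.mem_union.1 hp with hp | hp
    · exact hX0 p hp
    · exact (Finset.mem_filter.1 hp).2
  · intro τ hτ hX a b hab
    have hm := main (τ ⊓ ρ) (fun a b s h => ⟨hτ a b s h.1, hρ a b s h.2⟩)
      (fun p hp => ⟨hX p (Finset.mem_union_left _ hp), hX0 p hp⟩)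
    obtain ⟨a', ha', h1⟩ := hm a
    obtain ⟨b', hb', h2⟩ := hm b
    have h3 : τ a' b' := hX (a', b') (Finset.mem_union_right _ (Finset.mem_filter.2
      ⟨Finset.mem_product.2 ⟨ha', hb'⟩, ρ.trans (ρ.symm h1.2) (ρ.trans hab h2.2)⟩))
    exact τ.trans h1.1 (τ.trans h3 (τ.symm h2.1))

end Pool.Agent.H.MP_f4ff42_al
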